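import Pool.Agent.H5.EG.Spec2

/-!
# Bounds for the coefficients from the mean of the logarithm
-/

set_option autoImplicit false

namespace Pool.Agent.H282.EG

open Pool.Agent.H5.EG

theorem fcoef (h1 : S_fourier) (h2 : S_cauchy) (h3 : S_exp) : S_fcoef := by
  intro F R ρ τ hρ hρR hR1 hτ
  have hR0 : 0 < R := hρ.trans hρR
  obtain ⟨e1, e2, e3⟩ := h3 F
  have hc : ∀ n : ℕ, 1 ≤ n → ‖PowerSeries.coeff n (phi F.s)‖ * R ^ n ≤ 2 * τ := by
    intro n hn
    have h4 := (h1 (phi F.s) R e2 hR0 hR1).1 n hn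
    have h5 : mn F.s R = Real.circleAverage (fun x => |(ev (phi F.s) x).re|) 0 R := rfl
    rw [← h5] at h4
    linarith
  have hcoef : ∀ n, PowerSeries.coeff n (phi F.s) = -(F.s n : ℂ) / n := fun n => by
    unfold phi
    rw [PowerSeries.coeff_mk]
  refine ⟨?_, ?_⟩
  · intro n
    rcases Nat.eq_zero_or_pos n with rfl | hn
    · rw [F.s0]
      simp
    · have h4 := hc n hn
      rw [hcoef, norm_div, norm_neg, Complex.norm_intCast, Complex.norm_natCast] at h4
      have hn0 : (0 : ℝ) < n := by exact_mod_cast hn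
      rw [div_mul_eq_mul_div, div_le_iff₀ hn0] at h4
      linarith
  · intro n
    have hq : ρ / R < 1 := (div_lt_one hR0).2 hρR
    have hq0 : 0 ≤ ρ / R := by positivity
    have hb : ∀ x : ℂ, ‖x‖ = ρ → ‖ev (toC F.f) x‖ ≤ Real.exp (2 * τ * ρ / (R - ρ)) := by
      intro x hx
      have hx1 : ‖x‖ < 1 := by rw [hx]; linarith
      rw [e3 x hx1]
      refine (Complex.norm_exp_le_exp_norm _).trans (Real.exp_le_exp.2 ?_)
      have hs := ev_summable e2 hx1
      have hg : Summable fun n : ℕ => 2 * τ * (ρ / R) ^ (n + 1) :=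
        ((summable_nat_add_iff 1).2 (summable_geometric_of_lt_one hq0 hq)).mul_left _
      have hb0 : ‖ev (phi F.s) x‖ ≤ ∑' n, ‖PowerSeries.coeff n (phi F.s) * x ^ n‖ :=
        norm_tsum_le_tsum_norm hs
      rw [hs.tsum_eq_zero_add] at hb0
      have h0 : ‖PowerSeries.coeff 0 (phi F.s) * x ^ 0‖ = 0 := by
        rw [hcoef, F.s0]
        simp
      rw [h0, zero_add] at hb0
      have hle : ∑' n : ℕ, ‖PowerSeries.coeff (n + 1) (phi F.s) * x ^ (n + 1)‖ ≤
          ∑' n : ℕ, 2 * τ * (ρ / R) ^ (n + 1) := by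
        refine Summable.tsum_le_tsum (fun n => ?_) ((summable_nat_add_iff 1).2 hs) hg
        rw [norm_mul, norm_pow, hx]
        have h6 := hc (n + 1) (by omega)
        have h7 : ρ ^ (n + 1) = R ^ (n + 1) * (ρ / R) ^ (n + 1) := by
          rw [← mul_pow, mul_div_cancel₀ _ hR0.ne']
        rw [h7, ← mul_assoc]
        exact mul_le_mul_of_nonneg_right h6 (pow_nonneg hq0 _)
      have hval : ∑' n : ℕ, 2 * τ * (ρ / R) ^ (n + 1) = 2 * τ * ρ / (R - ρ) := by
        have h8 : ∀ n : ℕ, 2 * τ * (ρ / R) ^ (n + 1) = 2 * τ * (ρ / R) * (ρ / R) ^ n := by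
          intro n
          rw [pow_succ]
          ring
        rw [tsum_congr h8, tsum_mul_left, tsum_geometric_of_lt_one hq0 hq]
        have h9 : R - ρ ≠ 0 := by linarith
        have h10 : 1 - ρ / R = (R - ρ) / R := by
          field_simp
        rw [h10, inv_div]
        field_simp
      rw [← hval]
      exact hb0.trans hle
    have h11 := h2 (toC F.f) ρ _ e1 hρ (by linarith) hb n
    rw [coeff_toC] at h11
    exact h11

end Pool.Agent.H282.EG
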